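import Pool.Agent.MP_151d89_pr.H45.Haz
import Pool.Agent.MP_151d89_pr.H27.Pair

/-!
Joint probabilities of a down tower and an up tower in the positions of the pair list.
-/

set_option autoImplicit false
open MeasureTheory Finset

namespace Pool.Agent.MP_151d89_pr.H35
open Pool.Agent.MP_151d89_pr.H82 Pool.Agent.MP_151d89_pr.H33 Pool.Agent.MP_151d89_pr.H67
open Pool.Agent.MP_151d89_pr.H30 Pool.Agent.MP_151d89_pr.H27 Pool.Agent.MP_151d89_pr.H45
open Pool.Agent.MP_151d89_pr.H30W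
open Classical

variable {μ : Measure Conf}

theorem av_raise {m : Mv} {f : Conf} (h : Av 1 m f) : Av (-1) m (mv (tow m) 2 f) :=
  av_shift_iff m (-1) 2 (fun _ hy => mv_in _ f hy) (fun _ hy => mv_out _ f hy) (by simpa using h)

theorem av_lower {m : Mv} {f : Conf} (h : Av (-1) m f) : Av 1 m (mv (tow m) (-2) f) :=
  av_shift_iff m 1 (-2) (fun _ hy => mv_in _ f hy) (fun _ hy => mv_out _ f hy) (by simpa using h)

theorem hom_raise {m : Mv} {f : Conf} (hf : Hom f) (h : Av 1 m f) : Hom (mv (tow m) 2 f) :=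
  hom_move (Or.inl rfl) hf h (fun _ hy => by rw [mv_in _ f hy]; ring) fun _ hy => mv_out _ f hy

theorem hom_lower {m : Mv} {f : Conf} (hf : Hom f) (h : Av (-1) m f) :
    Hom (mv (tow m) (-2) f) :=
  hom_move (Or.inr rfl) hf h (fun _ hy => by rw [mv_in _ f hy]; ring) fun _ hy => mv_out _ f hy

/-- a down tower is determined by its start -/
theorem dn_unique {b : Bool} {x : ℤ × ℤ} {l l' : ℕ} {f : Conf} (h : Av (-1) (b, x, l) f)
    (h' : Av (-1) (b, x, l') f) : l = l' := by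
  have key : ∀ {l l' : ℕ}, Av (-1) (b, x, l) f → Av (-1) (b, x, l') f → ¬ l < l' := by
    intro l l' h h' e
    have a1 : f (pt b x (l + 1)) = f x + l + -1 := h.2.2.1
    have a2 := av_run h' (u := l + 1) (by omega) (by omega)
    omega
  have := key h h'
  have := key h' h
  omega

/-- an up tower is determined by its end -/
theorem up_unique {b : Bool} {y : ℤ × ℤ} {l l' : ℕ} {f : Conf}
    (h : Av 1 (b, pt b y (-l), l) f) (h' : Av 1 (b, pt b y (-l'), l') f) : l = l' := by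
  have key : ∀ {l l' : ℕ}, Av 1 (b, pt b y (-l), l) f → Av 1 (b, pt b y (-l'), l') f →
      ¬ l < l' := by
    intro l l' h h' e
    have a1 := vly_run (av_vly h).1.1 le_rfl
    have a2 := vly_run (av_vly h').1.1 (t := l + 1) (by omega)
    have a3 : f (pt b (pt b y (-l)) (-1)) = f (pt b y (-l)) + 1 := h.2.1
    rw [NullP.pt_pt, show -(l : ℤ) + -1 = -((l + 1 : ℕ) : ℤ) by push_cast; ring, a2] at a3
    push_cast at a3
    omega
  have := key h h'
  have := key h' h
  omega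

/-- the down towers with a given start are disjoint events -/
theorem dn_disj (hμ : Gibbs μ) (b : Bool) (x : ℤ × ℤ) (I : Finset ℕ) {Q : Set Conf}
    (hQ : MeasurableSet Q) :
    ∑ l ∈ I, μ.real {f | Av (-1) (b, x, l) f ∧ f ∈ Q} ≤ μ.real Q :=
  disj_sum hμ I (fun _ _ => (meas_Av _ _).inter hQ) hQ (fun _ _ _ _ h => h.2)
    fun _ _ _ _ _ _ h h' => dn_unique h.1 h'.1

/-- the up towers with a given end are disjoint events -/
theorem up_disj (hμ : Gibbs μ) (b : Bool) (y : ℤ × ℤ) (I : Finset ℕ) {Q : Set Conf}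
    (hQ : MeasurableSet Q) :
    ∑ l ∈ I, μ.real {f | f ∈ Q ∧ Av 1 (b, pt b y (-l), l) f} ≤ μ.real Q :=
  disj_sum hμ I (fun _ _ => hQ.inter (meas_Av _ _)) hQ (fun _ _ _ _ h => h.1)
    fun _ _ _ _ _ _ h h' => up_unique h.2 h'.2

/-- raising the up towers with a given start -/
theorem up_sum (hμ : Gibbs μ) (b : Bool) (x : ℤ × ℤ) (I : Finset ℕ) {Q Q' : Set Conf}
    (hQ : MeasurableSet Q) (hQ' : MeasurableSet Q')
    (h : ∀ l f, Hom f → f ∈ Q → Av 1 (b, x, l) f → mv (tow (b, x, l)) 2 f ∈ Q') :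
    ∑ l ∈ I, μ.real {f | f ∈ Q ∧ Av 1 (b, x, l) f} ≤ μ.real Q' :=
  mv_sum hμ I (fun l => tow (b, x, l)) (fun _ => 2) (fun _ _ => hQ.inter (meas_Av _ _)) hQ'
    (fun l _ f hf a => ⟨hom_raise hf a.2, h l f hf a.1 a.2⟩)
    fun _ _ _ _ _ _ _ _ a a' e => dn_unique (av_raise a.2) (e ▸ av_raise a'.2)

/-- lowering the down towers with a given end -/
theorem dn_sum (hμ : Gibbs μ) (b : Bool) (y : ℤ × ℤ) (I : Finset ℕ) {Q Q' : Set Conf}
    (hQ : MeasurableSet Q) (hQ' : MeasurableSet Q')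
    (h : ∀ (l : ℕ) f, Hom f → f ∈ Q → Av (-1) (b, pt b y (-l), l) f →
      mv (tow (b, pt b y (-l), l)) (-2) f ∈ Q') :
    ∑ l ∈ I, μ.real {f | Av (-1) (b, pt b y (-l), l) f ∧ f ∈ Q} ≤ μ.real Q' :=
  mv_sum hμ I (fun l => tow (b, pt b y (-l), l)) (fun _ => -2)
    (fun _ _ => (meas_Av _ _).inter hQ) hQ'
    (fun l _ f hf a => ⟨hom_lower hf a.1, h l f hf a.2 a.1⟩)
    fun _ _ _ _ _ _ _ _ a a' e => up_unique (av_lower a.1) (e ▸ av_lower a'.1)

/-- collinear pair, the up tower follows the down tower: raise it and get the union -/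
theorem pl1 (hμ : Gibbs μ) (b : Bool) (x : ℤ × ℤ) (l l' : ℕ) :
    μ.real {f | Av (-1) (b, x, l) f ∧ Av 1 (b, pt b x (l + 1), l') f} ≤
      μ.real {f | Av (-1) (b, x, l + 1 + l') f} := by
  refine mv_le hμ (tow (b, pt b x (l + 1), l')) 2 ((meas_Av _ _).inter (meas_Av _ _))
    (meas_Av _ _) fun f hf h => ⟨hom_raise hf h.2, ?_⟩
  have h1 := hom_raise hf h.2
  have h2 := av_raise h.2
  set g := mv (tow (b, pt b x (l + 1), l')) 2 f with hg
  have k : ∀ y, co b y ≤ co b x + l → g y = f y := fun y hy =>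
    mv_lt (b := b) l' 2 f (by rw [co_pt]; omega)
  have k0 := k x (by omega)
  have e1 : g (pt b x (l + 1)) = f (pt b x (l + 1)) + 2 := mv_top _ _ _ _ _
  have e2 : f (pt b x (l + 1)) = f x + l + -1 := h.1.2.2.1
  obtain ⟨r1, r2, r3, r4⟩ := (av_rdg h.1).1
  refine rdg_av h1 ⟨fun t ht => ?_, ?_, ?_, ?_⟩ ?_
  · rcases le_or_gt t l with c | c
    · rw [k _ (by rw [co_pt]; omega), k0]
      exact r1 t c
    · have a := av_run h2 (u := t - (l + 1)) (by omega) (by omega)
      rw [NullP.pt_pt, show (l : ℤ) + 1 + (t - (l + 1)) = t by ring] at a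
      omega
  · rw [k _ (by rw [(co_dir b x).2]; omega), k0, r2]
  · rw [k _ (by rw [(co_side b x).1]; omega), k0, r3]
  · rw [k _ (by rw [(co_side b x).2]; omega), k0, r4]
  · have a := (av_rdg h2).2
    rw [NullP.pt_pt] at a
    push_cast
    exact a

/-- a down tower without its first site -/
theorem av_tail {b : Bool} {x : ℤ × ℤ} {l : ℕ} {f : Conf} (hf : Hom f)
    (h : Av (-1) (b, x, l + 1) f) : Av (-1) (b, x + dir b, l) f := by
  have r := av_rdg h
  have a1 := av_run h (u := 1) (by omega) (by omega)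
  have a2 := av_side h (u := 1) (by omega) (by omega)
  rw [pt_one] at a1 a2
  refine rdg_av hf ⟨fun t ht => ?_, ?_, ?_, ?_⟩ ?_
  · have a := av_run h (u := 1 + t) (by omega) (by omega)
    rw [← NullP.pt_pt, pt_one] at a
    omega
  · rw [add_sub_cancel_right]; omega
  · omega
  · omega
  · have a := r.2
    rw [← pt_one, NullP.pt_pt, add_comm]
    exact_mod_cast a

/-- an up tower without its last site -/
theorem av_init {b : Bool} {x : ℤ × ℤ} {l : ℕ} {f : Conf} (h : Av 1 (b, x, l + 1) f) :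
    Av 1 (b, x, l) f :=
  ⟨fun t ht => h.1 t (Nat.le_succ_of_le ht), h.2.1,
    (av_run h (u := l + 1) (by omega) (by omega)).trans (add_assoc _ _ _).symm,
    fun t ht => h.2.2.2 t (Nat.le_succ_of_le ht)⟩

/-- moves outside the tower and its neighbours do not matter -/
theorem av_keep {s : ℤ} {m : Mv} {f g : Conf} (h : Av s m f)
    (h1 : ∀ t : ℤ, -1 ≤ t → t ≤ m.2.2 + 1 → g (pt m.1 m.2.1 t) = f (pt m.1 m.2.1 t))
    (h2 : ∀ t : ℤ, 0 ≤ t → t ≤ m.2.2 → g (pt m.1 m.2.1 t + dir (!m.1)) =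
      f (pt m.1 m.2.1 t + dir (!m.1)) ∧ g (pt m.1 m.2.1 t - dir (!m.1)) =
        f (pt m.1 m.2.1 t - dir (!m.1))) : Av s m g := by
  have h0 := h1 0 (by omega) (by omega)
  rw [pt_zero] at h0
  obtain ⟨a1, a2, a3, a4⟩ := h
  refine ⟨fun t ht => ?_, ?_, ?_, fun t ht => ⟨?_, ?_⟩⟩
  · rw [h1 t (by omega) (by omega), h0, a1 t ht]
  · rw [h1 _ (by omega) (by omega), h0, a2]
  · rw [h1 _ (by omega) (by omega), h0, a3]
  · rw [(h2 t (by omega) (by omega)).1, h0, (a4 t ht).1]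
  · rw [(h2 t (by omega) (by omega)).2, h0, (a4 t ht).2]

/-- the up towers that start at the side of the start of a down tower, fixed down tower -/
theorem pl4_tail (hμ : Gibbs μ) (b : Bool) (x : ℤ × ℤ) (l : ℕ) (I : Finset ℕ) :
    ∑ l' ∈ I, μ.real {f | Av (-1) (b, x, l + 1) f ∧ Av 1 (!b, x + dir (!b), l') f} ≤
      μ.real {f | Av (-1) (b, x + dir b, l) f} := by
  refine up_sum hμ (!b) (x + dir (!b)) I (Q := {f | Av (-1) (b, x, l + 1) f}) (meas_Av _ _)
    (meas_Av _ _) fun l' f hf h _ => av_keep (av_tail hf h) (fun t a1 a2 => mv_out _ _ fun e => ?_)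
      fun t a1 a2 => ⟨mv_out _ _ fun e => ?_, mv_out _ _ fun e => ?_⟩
  all_goals
    obtain ⟨j, -, e⟩ := mem_tow.1 e
    cases b <;> simp only [pt_true, pt_false, Bool.not_true, Bool.not_false, dir, Prod.ext_iff,
      Prod.fst_add, Prod.snd_add, Prod.fst_sub, Prod.snd_sub] at e <;> omega

/-- the same, all down towers with the given start -/
theorem pl4_link (hμ : Gibbs μ) (b : Bool) (x : ℤ × ℤ) (I J : Finset ℕ) :
    ∑ l' ∈ J, ∑ l ∈ I, μ.real {f | Av (-1) (b, x, l) f ∧ Av 1 (!b, x + dir (!b), l') f} ≤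
      μ.real {f | ¬ Hi b x f ∧ ¬ Hi (!b) x f ∧ ¬ Lo (!b) x f} := by
  refine le_trans (sum_le_sum fun l' _ => ?_) (up_sum hμ (!b) (x + dir (!b)) J
    (Q := {f | Rdg b x 0 f}) (meas_Rdg _ _ _)
    ((meas_Hi _ _).compl.inter ((meas_Hi _ _).compl.inter (meas_Lo _ _).compl))
    fun l' f hf h _ => ?_)
  · refine le_trans (sum_le_sum fun l _ => real_mono hμ fun f _ h => ?_)
      (dn_disj hμ b x I ((meas_Rdg b x 0).inter (meas_Av 1 (!b, x + dir (!b), l'))))
    obtain ⟨-, r2, r3, r4⟩ := (av_rdg h.1).1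
    exact ⟨h.1, ⟨fun t ht => by simp [Nat.le_zero.1 ht, pt_zero], r2, r3, r4⟩, h.2⟩
  · obtain ⟨-, r2, r3, r4⟩ := h
    have k : ∀ y, co (!b) y ≤ co (!b) x → mv (tow (!b, x + dir (!b), l')) 2 f y = f y :=
      fun y hy => mv_lt (b := !b) l' 2 f (by rw [(co_dir (!b) x).1]; omega)
    have k0 := k x le_rfl
    have k1 := k (x - dir b) (by have := (co_side (!b) x).2; rw [Bool.not_not] at this; omega)
    have k2 := k (x - dir (!b)) (by rw [(co_dir (!b) x).2]; omega)
    have k3 := mv_top (!b) (x + dir (!b)) l' 2 f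
    simp only [Set.mem_ofPred_eq, Hi, Lo]
    omega

/-- the down towers that end at the side of the end of an up tower, fixed up tower -/
theorem pl7_init (hμ : Gibbs μ) (b : Bool) (y x' : ℤ × ℤ) (l' : ℕ) (I : Finset ℕ)
    (hx : pt (!b) x' (l' + 1) = y + dir b) :
    ∑ l ∈ I, μ.real {f | Av (-1) (b, pt b y (-l), l) f ∧ Av 1 (!b, x', l' + 1) f} ≤
      μ.real {f | Av 1 (!b, x', l') f} := by
  refine dn_sum hμ b y I (Q := {f | Av 1 (!b, x', l' + 1) f}) (meas_Av _ _)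
    (meas_Av _ _) fun l f hf h _ => av_keep (av_init h) (fun t a1 a2 => mv_out _ _ fun e => ?_)
      fun t a1 a2 => ⟨mv_out _ _ fun e => ?_, mv_out _ _ fun e => ?_⟩
  all_goals
    obtain ⟨j, -, e⟩ := mem_towUp.1 e
    cases b <;> simp only [pt_true, pt_false, Bool.not_true, Bool.not_false, dir, Prod.ext_iff,
      Prod.fst_add, Prod.snd_add, Prod.fst_sub, Prod.snd_sub] at e hx a2 <;> omega

/-- the same, all up towers with the given end -/
theorem pl7_link (hμ : Gibbs μ) (b : Bool) (y : ℤ × ℤ) (I J : Finset ℕ) :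
    ∑ l ∈ I, ∑ l' ∈ J, μ.real {f | Av (-1) (b, pt b y (-l), l) f ∧
        Av 1 (!b, pt (!b) (y + dir b) (-l'), l') f} ≤
      μ.real {f | ¬ Lo b (y + dir b) f ∧ ¬ Lo (!b) (y + dir b) f ∧ ¬ Hi b (y + dir b) f} := by
  refine le_trans (sum_le_sum fun l _ => ?_) (dn_sum hμ b y I
    (Q := {f | Vly (!b) (y + dir b) 0 f}) (meas_Vly _ _ _)
    ((meas_Lo _ _).compl.inter ((meas_Lo _ _).compl.inter (meas_Hi _ _).compl))
    fun l f hf h _ => ?_)
  · refine le_trans (sum_le_sum fun l' _ => real_mono hμ fun f _ h => ?_)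
      (up_disj hμ (!b) (y + dir b) J
        ((meas_Av (-1) (b, pt b y (-l), l)).inter (meas_Vly (!b) (y + dir b) 0)))
    obtain ⟨-, r2, r3, r4⟩ := (av_vly h.2).1
    exact ⟨⟨h.1, fun t ht => by simp [Nat.le_zero.1 ht, pt_zero], r2, r3, r4⟩, h.2⟩
  · obtain ⟨-, r2, r3, r4⟩ := h
    rw [Bool.not_not] at r3 r4
    rw [add_sub_cancel_right] at r4
    have k : ∀ z, co b (y + dir b) ≤ co b z → mv (tow (b, pt b y (-l), l)) (-2) f z = f z :=
      fun z hz => mv_gt (b := b) l (-2) f (by rw [(co_dir b y).1] at hz; omega)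
    have k0 := k _ le_rfl
    have k1 := k (y + dir b + dir b) (by rw [(co_dir b (y + dir b)).1]; omega)
    have k2 := k (y + dir b + dir (!b)) (by rw [(co_side b (y + dir b)).1])
    have k3 := mv_bot b y l (-2) f
    simp only [Set.mem_ofPred_eq, Hi, Lo,
      add_sub_cancel_right]
    omega

end Pool.Agent.MP_151d89_pr.H35
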