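import Pool.Agent.MP_151d89_pr.H35.R12
import Pool.Agent.MP_151d89_pr.H20.Q
import Pool.Agent.MP_151d89_pr.H27.R4
import Pool.Agent.MP_151d89_pr.H45.R7
import Pool.Agent.MP_151d89_pr.H87.R3

/-!
The bound for the pair energy.
-/

set_option autoImplicit false

namespace Pool.Agent.MP_151d89_pr.H35

theorem e_row : H67E.EStmt := e_glue H20.q_row H27.r4_row H45.r7_row H87.r3a_row H87.r3b_row

end Pool.Agent.MP_151d89_pr.H35
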