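import Pool.Agent.MP_151d89_pr.H35.Flip
import Pool.Agent.MP_151d89_pr.H67E.Spec

/-!
The collinear pairs, the pairs joined end to start, and the assembly of the pair energy.
-/

set_option autoImplicit false
open MeasureTheory Finset

namespace Pool.Agent.MP_151d89_pr.H35
open Pool.Agent.MP_151d89_pr.H82 Pool.Agent.MP_151d89_pr.H33 Pool.Agent.MP_151d89_pr.H67
open Pool.Agent.MP_151d89_pr.H30 Pool.Agent.MP_151d89_pr.H27 Pool.Agent.MP_151d89_pr.H45
open Pool.Agent.MP_151d89_pr.H67E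
open Pool.Agent.MP_151d89_pr.H30W (Leg al Hi Lo fl NoDesc)
open Classical

variable {μ : Measure Conf} {φ : ℤ × ℤ → ℝ} {U : Finset (ℤ × ℤ)} {lam TV : ℝ}
  {A : Bool → ℤ × ℤ → ℝ}

/-- the down towers of one type with a given start -/
theorem sum_dn1 (hμ : Gibbs μ) (S : Finset Mv) (b : Bool) (x : ℤ × ℤ) {Q : Set Conf}
    (hQ : MeasurableSet Q) : ∑ m ∈ S, (if m.1 = b ∧ m.2.1 = x then
      μ.real {f | Av (-1) m f ∧ f ∈ Q} else 0) ≤ μ.real Q := by
  rw [← sum_filter]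
  refine disj_sum hμ _ (fun _ _ => (meas_Av _ _).inter hQ) hQ (fun _ _ _ _ h => h.2) ?_
  rintro ⟨b1, x1, l1⟩ h1 ⟨b2, x2, l2⟩ h2 f - a1 a2
  obtain ⟨rfl, rfl⟩ := (mem_filter.1 h1).2
  obtain ⟨e1, e2⟩ := (mem_filter.1 h2).2
  simp only at e1 e2
  subst e1 e2
  rw [dn_unique a1.1 a2.1]

theorem start_eq {b : Bool} {x y : ℤ × ℤ} {l : ℤ} (h : pt b x l = y) : x = pt b y (-l) := by
  rw [← h, NullP.pt_pt, add_neg_cancel, pt_zero]

/-- the up towers of one type with a given end -/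
theorem sum_up1 (hμ : Gibbs μ) (S : Finset Mv) (b : Bool) (y : ℤ × ℤ) {Q : Set Conf}
    (hQ : MeasurableSet Q) : ∑ m ∈ S, (if m.1 = b ∧ pt m.1 m.2.1 m.2.2 = y then
      μ.real {f | f ∈ Q ∧ Av 1 m f} else 0) ≤ μ.real Q := by
  rw [← sum_filter]
  refine disj_sum hμ _ (fun _ _ => hQ.inter (meas_Av _ _)) hQ (fun _ _ _ _ h => h.1) ?_
  rintro ⟨b1, x1, l1⟩ h1 ⟨b2, x2, l2⟩ h2 f - a1 a2
  obtain ⟨rfl, e0⟩ := (mem_filter.1 h1).2
  obtain ⟨e1, e2⟩ := (mem_filter.1 h2).2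
  simp only at e0 e1 e2
  subst e1
  obtain rfl := start_eq e0
  obtain rfl := start_eq e2
  rw [up_unique a1.2 a2.2]

theorem ite_two {P : Prop} [Decidable P] (b : Bool) (a : ℝ) :
    (if P then a else 0) = (if b = true ∧ P then a else 0) + (if b = false ∧ P then a else 0) := by
  cases b <;> simp

/-- the down towers with a given start -/
theorem sum_dn (hμ : Gibbs μ) (S : Finset Mv) (x : ℤ × ℤ) {Q : Set Conf} (hQ : MeasurableSet Q) :
    ∑ m ∈ S, (if m.2.1 = x then μ.real {f | Av (-1) m f ∧ f ∈ Q} else 0) ≤ 2 * μ.real Q := by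
  rw [sum_congr rfl fun m _ => ite_two m.1 _, sum_add_distrib, two_mul]
  exact add_le_add (by convert sum_dn1 hμ S true x hQ) (by convert sum_dn1 hμ S false x hQ)

/-- the up towers with a given end -/
theorem sum_up (hμ : Gibbs μ) (S : Finset Mv) (y : ℤ × ℤ) {Q : Set Conf} (hQ : MeasurableSet Q) :
    ∑ m ∈ S, (if pt m.1 m.2.1 m.2.2 = y then μ.real {f | f ∈ Q ∧ Av 1 m f} else 0) ≤
      2 * μ.real Q := by
  rw [sum_congr rfl fun m _ => ite_two m.1 _, sum_add_distrib, two_mul]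
  exact add_le_add (by convert sum_up1 hμ S true y hQ) (by convert sum_up1 hμ S false y hQ)

/-- a tower that contains another one has the smaller value -/
theorem ps_sub (φ : ℤ × ℤ → ℝ) {m T : Mv}
    (h : ∀ t : ℕ, t ≤ m.2.2 → ∃ u : ℕ, u ≤ T.2.2 ∧ pt T.1 T.2.1 u = pt m.1 m.2.1 t) :
    ps φ T ≤ ps φ m := by
  obtain ⟨t, ht, e⟩ := ps_ex φ m
  obtain ⟨u, hu, e'⟩ := h t ht
  rw [e, ← e']
  exact ps_le φ T hu

/-- one site per tower -/
theorem one_le_QQ (μ : Measure Conf) (n : ℕ) (φ : ℤ × ℤ → ℝ) (τ : Mv → ℕ) (hτ : ∀ m, τ m ≤ m.2.2) :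
    ∑ m ∈ II n, os φ m (τ m) ^ 2 * pp μ m ≤ QQ μ n φ := by
  refine le_trans (sum_le_sum fun m _ => ?_) (sum_le_sum_of_subset_of_nonneg (fun m => II_TT)
    fun m _ _ => mul_nonneg (pp_nonneg μ m) (sum_nonneg fun _ _ => sq_nonneg _))
  rw [mul_comm]
  exact mul_le_mul_of_nonneg_left (single_le_sum (f := fun t : ℕ => os φ m t ^ 2)
    (fun _ _ => sq_nonneg _) (mem_range.2 (Nat.lt_succ_of_le (hτ m)))) (pp_nonneg μ m)

theorem up_not_lo {m : Mv} {f : Conf} (h : Av 1 m f) (c : Bool) :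
    ¬ Lo c (pt m.1 m.2.1 m.2.2) f := by
  obtain ⟨b, x, l⟩ := m
  have a1 := av_run h (u := l) (by omega) le_rfl
  have a2 : f (pt b x (l + 1)) = f x + l + 1 := h.2.2.1
  have a3 := (av_side h (u := l) (by omega) le_rfl).1
  rw [NullP.pt_succ] at a2
  simp only [Lo]
  cases b <;> cases c <;> simp only [Bool.not_true, Bool.not_false] at a3 <;> omega

/-- the edges that leave the end of a tower -/
theorem end_link (h : Dat μ φ U lam TV A) (n : ℕ) (c : Bool) :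
    ∑ m ∈ II n, ww φ c (pt m.1 m.2.1 m.2.2) ^ 2 * pp μ m ≤ 10 * (lam * TV) := by
  have := h.gib.1
  rw [← sum_fiberwise_of_maps_to (t := box 0 n) (g := fun m : Mv => pt m.1 m.2.1 m.2.2)
    fun m hm => mem_box0.2 (mem_II.1 hm).2.2]
  calc _ ≤ ∑ z ∈ box 0 n, 10 * (lam * ww φ c z) := sum_le_sum fun z _ => ?_
    _ ≤ _ := by
      rw [← mul_sum, ← mul_sum]
      exact mul_le_mul_of_nonneg_left (mul_le_mul_of_nonneg_left (h.tv c _) h.lam0) (by norm_num)
  have h1 := sum_up h.gib (II n) z (meas_Lo (!c) z).compl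
  have h2 := h.edge c z (ω := μ.real {f | ¬ Lo (!c) z f}) measureReal_nonneg measureReal_le_one
    (h.a0' _ z)
  calc _ = ∑ m ∈ II n with pt m.1 m.2.1 m.2.2 = z, ww φ c z ^ 2 * pp μ m :=
        sum_congr rfl fun m hm => by rw [(mem_filter.1 hm).2]
    _ ≤ ww φ c z ^ 2 * (2 * μ.real {f | ¬ Lo (!c) z f}) := by
        rw [← mul_sum]
        refine mul_le_mul_of_nonneg_left (le_trans ?_ h1) (sq_nonneg _)
        rw [sum_filter]
        refine sum_le_sum fun m _ => ?_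
        split_ifs with e
        · rw [pp, p_rev h.gib]
          exact real_mono h.gib fun f _ a => ⟨e ▸ up_not_lo a (!c), a⟩
        · exact le_rfl
    _ ≤ _ := by linarith

theorem Bd_ge (h : Dat μ φ U lam TV A) (n : ℕ) :
    0 ≤ QQ μ n φ ∧ 0 ≤ lam * TV ∧ QQ μ n φ + lam * TV ≤ Bd μ n φ U lam TV :=
  ⟨QQ_nonneg μ n φ, mul_nonneg h.lam0 h.tv0, le_add_of_nonneg_right
    (mul_nonneg (sq_nonneg _) (add_nonneg (Nat.cast_nonneg _) (LL_nonneg μ n U)))⟩

theorem r1_row : PStmt R1 := by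
  intro μ φ U lam TV A h n
  obtain ⟨b1, b2, b3⟩ := Bd_ge h n
  suffices Pc μ n φ R1 ≤ 2 * QQ μ n φ by linarith
  rw [Pc, ← sum_product']
  refine (sum_inj _ (TT n ×ˢ range (2 * n + 1))
    (fun p : Mv × Mv => ((p.1.1, p.1.2.1, p.1.2.2 + 1 + p.2.2.2), p.1.2.2))
    (h := fun q : Mv × ℕ => if q.2 < q.1.2.2 then
      pp μ q.1 * (os φ q.1 q.2 ^ 2 + os φ q.1 (q.2 + 1 : ℕ) ^ 2) else 0) ?_ ?_ ?_ ?_).trans ?_
  · rintro ⟨⟨b, x, l⟩, b', x', l'⟩ hp h0
    obtain ⟨e1, e2⟩ : R1 _ _ := by_contra fun e => h0 (if_neg e)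
    simp only at e1 e2
    subst e1 e2
    obtain ⟨a1, a2⟩ := mem_product.1 hp
    have a3 := (mem_II.1 a2).2.2
    simp only [NullP.pt_pt] at a3
    have a4 := len_lt (l := l + 1 + l') (mem_II.1 a1).1 (by exact_mod_cast a3)
    exact mem_product.2 ⟨mem_TT.2 ⟨(mem_II.1 a1).1, by simp only; omega⟩,
      mem_range.2 (by simp only; omega)⟩
  · rintro ⟨⟨b, x, l⟩, b', x', l'⟩ - ⟨⟨c, y, k⟩, c', y', k'⟩ - h0 h1 e
    obtain ⟨e1, e2⟩ : R1 _ _ := by_contra fun e => h0 (if_neg e)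
    obtain ⟨e3, e4⟩ : R1 _ _ := by_contra fun e => h1 (if_neg e)
    simp only [Prod.mk.injEq] at e1 e2 e3 e4 e
    obtain ⟨⟨rfl, rfl, e5⟩, rfl⟩ := e
    obtain rfl : l' = k' := by omega
    rw [e1, e2, e3, e4]
  · rintro ⟨⟨b, x, l⟩, b', x', l'⟩ - h0
    have hR : R1 _ _ := by_contra fun e => h0 (if_neg e)
    simp only
    rw [if_pos hR, if_pos (by omega)]
    obtain ⟨e1, e2⟩ := hR
    simp only at e1 e2
    subst e1 e2
    have a1 : ps φ (b', x, l + 1 + l') ≤ ps φ (b', x, l) :=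
      ps_sub φ fun t ht => ⟨t, by simp only at ht ⊢; omega, rfl⟩
    have a2 : ps φ (b', x, l + 1 + l') ≤ ps φ (b', pt b' x (l + 1), l') :=
      ps_sub φ fun t ht => ⟨l + 1 + t, by simp only at ht ⊢; omega, by
        simp only [NullP.pt_pt]; push_cast; rfl⟩
    have a3 := ps_le φ (b', x, l) le_rfl
    have a4 := ps_le φ (b', pt b' x (l + 1), l') (Nat.zero_le _)
    simp only [Nat.cast_zero, pt_zero] at a3 a4
    rw [mul_comm]
    refine mul_le_mul (pl1 h.gib b' x l l') ?_ (sq_nonneg _) (pp_nonneg _ _)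
    simp only [os]
    push_cast
    rcases le_total (ps φ (b', x, l)) (ps φ (b', pt b' x (l + 1), l')) with c | c <;> nlinarith
  · intro q _
    split_ifs
    · exact mul_nonneg (pp_nonneg _ _) (add_nonneg (sq_nonneg _) (sq_nonneg _))
    · exact le_rfl
  · rw [sum_product, QQ, mul_sum]
    refine sum_le_sum fun T hT => ?_
    simp only
    rw [← sum_filter, ← mul_sum, mul_left_comm]
    refine mul_le_mul_of_nonneg_left ?_ (pp_nonneg _ _)
    have e : (range (2 * n + 1)).filter (fun t => t < T.2.2) = range T.2.2 := by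
      have := (mem_TT.1 hT).2
      ext t
      simp only [mem_filter, mem_range]
      omega
    rw [e, sum_add_distrib, two_mul]
    refine add_le_add ?_ ?_
    · rw [sum_range_succ]
      exact le_add_of_nonneg_right (sq_nonneg _)
    · rw [sum_range_succ']
      exact le_add_of_nonneg_right (sq_nonneg _)

theorem r2_row (c : Bool) : PStmt (R2 c) := by
  intro μ φ U lam TV A h n
  obtain ⟨b1, b2, b3⟩ := Bd_ge h n
  suffices Pc μ n φ (R2 c) ≤ 12 * QQ μ n φ + 60 * (lam * TV) by linarith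
  have k1 := one_le_QQ μ n φ (fun _ => 0) fun _ => Nat.zero_le _
  have k2 := one_le_QQ μ n φ (fun m => m.2.2) fun _ => le_rfl
  have k3 := end_link h n c
  calc _ ≤ ∑ m ∈ II n, ∑ m' ∈ II n,
        (3 * os φ m (0 : ℕ) ^ 2 * (if pt m'.1 m'.2.1 m'.2.2 = m.2.1 - dir c then pq μ m m' else 0) +
          3 * (os φ m' m'.2.2 ^ 2 + ww φ c (pt m'.1 m'.2.1 m'.2.2) ^ 2) *
            if m.2.1 = pt m'.1 m'.2.1 m'.2.2 + dir c then pq μ m m' else 0) := by
        refine sum_le_sum fun m _ => sum_le_sum fun m' _ => ?_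
        by_cases e : R2 c m m'
        · rw [if_pos e, if_pos (eq_sub_of_add_eq e), if_pos e.symm, ← add_mul]
          refine mul_le_mul_of_nonneg_right ?_ (pq_nonneg _ _ _)
          simp only [os, ww, sq_abs, Nat.cast_zero, pt_zero]
          rw [show pt m'.1 m'.2.1 m'.2.2 + dir c = m.2.1 from e]
          nlinarith [sq_nonneg (φ m.2.1 - ps φ m + (φ (pt m'.1 m'.2.1 m'.2.2) - ps φ m')),
            sq_nonneg (φ m.2.1 - ps φ m + (φ m.2.1 - φ (pt m'.1 m'.2.1 m'.2.2))),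
            sq_nonneg (φ (pt m'.1 m'.2.1 m'.2.2) - ps φ m' -
              (φ m.2.1 - φ (pt m'.1 m'.2.1 m'.2.2)))]
        · rw [if_neg e, if_neg fun e' => e (by rw [R2, e', sub_add_cancel]),
            if_neg fun e' => e e'.symm]
          simp
    _ ≤ ∑ m ∈ II n, 3 * os φ m (0 : ℕ) ^ 2 * (2 * pp μ m) + ∑ m' ∈ II n,
          3 * (os φ m' m'.2.2 ^ 2 + ww φ c (pt m'.1 m'.2.1 m'.2.2) ^ 2) * (2 * pp μ m') := by
        simp only [sum_add_distrib]
        refine add_le_add (sum_le_sum fun m _ => ?_) ?_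
        · rw [← mul_sum]
          exact mul_le_mul_of_nonneg_left (sum_up h.gib (II n) _ (meas_Av (-1) m)) (by positivity)
        · rw [sum_comm]
          refine sum_le_sum fun m' _ => ?_
          rw [← mul_sum, pp, p_rev h.gib]
          exact mul_le_mul_of_nonneg_left (sum_dn h.gib (II n) _ (meas_Av 1 m')) (by positivity)
    _ = 6 * ∑ m ∈ II n, os φ m (0 : ℕ) ^ 2 * pp μ m + (6 * ∑ m ∈ II n, os φ m m.2.2 ^ 2 * pp μ m +
          6 * ∑ m ∈ II n, ww φ c (pt m.1 m.2.1 m.2.2) ^ 2 * pp μ m) := by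
        simp only [mul_sum, ← sum_add_distrib]
        exact sum_congr rfl fun m _ => by ring
    _ ≤ _ := by linarith

/-- the pair list is covered by the relations of the rows -/
theorem pl_cover (φ : ℤ × ℤ → ℝ) {m m' : Mv} (h : PL m m') (e : ps φ m ≠ ps φ m') :
    R1 m m' ∨ R2 true m m' ∨ R2 false m m' ∨ R3a φ 1 m m' ∨ R3a φ (-1) m m' ∨ R3b φ 1 m m' ∨
      R3b φ (-1) m m' ∨ R4 m m' ∨ R7 m m' := by
  have k : ∀ c, R2 c m m' → R2 true m m' ∨ R2 false m m' := fun c h => by cases c <;> tauto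
  have k3 : ∀ s, R3 s m m' → R3a φ s m m' ∨ R3b φ s m m' := fun s h =>
    (lt_or_gt_of_ne e).elim (fun a => Or.inr ⟨h, a⟩) fun a => Or.inl ⟨h, a⟩
  rcases h with ⟨e1, h | h | ⟨i, a1, a2, h | h⟩⟩ | ⟨e1, h | h | h | h⟩
  · exact Or.inl ⟨e1, h⟩
  · have := k m.1 (by rw [R2, e1, ← NullP.pt_succ, h])
    tauto
  · have := k3 1 ⟨e1, i, a1, a2, by rw [h, pt_one]⟩
    tauto
  · have := k3 (-1) ⟨e1, i, a1, a2, by rw [h, pt_neg_one]⟩
    tauto
  · have : R4 m m' := ⟨e1, h⟩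
    tauto
  · have := k m'.1 (by rw [R2, ← NullP.pt_succ, h])
    tauto
  · have := k m.1 (by rw [R2, h, pt_neg_one, sub_add_cancel])
    tauto
  · have : R7 m m' := ⟨e1, h⟩
    tauto

theorem e_glue (hQ : QStmt) (h4 : PStmt R4) (h7 : PStmt R7)
    (ha : ∀ s : ℤ, s = 1 ∨ s = -1 → PStmt' fun φ => R3a φ s)
    (hb : ∀ s : ℤ, s = 1 ∨ s = -1 → PStmt' fun φ => R3b φ s) : EStmt := by
  obtain ⟨C, hC, hQ⟩ := hQ
  refine ⟨1800 * C, by positivity, fun μ φ U lam TV A h FM hF n => ?_⟩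
  have a0 := hQ μ φ U lam TV A h FM hF n
  have a1 := r1_row μ φ U lam TV A h n
  have a2 := r2_row true μ φ U lam TV A h n
  have a3 := r2_row false μ φ U lam TV A h n
  have a4 := ha 1 (Or.inl rfl) μ φ U lam TV A h n
  have a5 := ha (-1) (Or.inr rfl) μ φ U lam TV A h n
  have a6 := hb 1 (Or.inl rfl) μ φ U lam TV A h n
  have a7 := hb (-1) (Or.inr rfl) μ φ U lam TV A h n
  have a8 := h4 μ φ U lam TV A h n
  have a9 := h7 μ φ U lam TV A h n
  suffices Pair μ n (ps φ) ≤ Pc μ n φ R1 + Pc μ n φ (R2 true) + Pc μ n φ (R2 false) +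
      Pc μ n φ (R3a φ 1) + Pc μ n φ (R3a φ (-1)) + Pc μ n φ (R3b φ 1) + Pc μ n φ (R3b φ (-1)) +
      Pc μ n φ R4 + Pc μ n φ R7 by linarith
  simp only [Pc, Pair, ← sum_add_distrib]
  refine sum_le_sum fun m _ => sum_le_sum fun m' _ => ?_
  have p0 : 0 ≤ (ps φ m - ps φ m') ^ 2 * pq μ m m' := mul_nonneg (sq_nonneg _) (pq_nonneg _ _ _)
  change (if PL m m' then (ps φ m - ps φ m') ^ 2 * pq μ m m' else 0) ≤ _
  generalize hv : (ps φ m - ps φ m') ^ 2 * pq μ m m' = v at p0 ⊢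
  have k : ∀ P : Prop, 0 ≤ (if P then v else 0) ∧ (P → (if P then v else 0) = v) := fun P =>
    ⟨by split_ifs <;> linarith, fun e => if_pos e⟩
  have k1 := k (R1 m m')
  have k2 := k (R2 true m m')
  have k3 := k (R2 false m m')
  have k4 := k (R3a φ 1 m m')
  have k5 := k (R3a φ (-1) m m')
  have k6 := k (R3b φ 1 m m')
  have k7 := k (R3b φ (-1) m m')
  have k8 := k (R4 m m')
  have k9 := k (R7 m m')
  by_cases e : PL m m'
  · rw [if_pos e]
    by_cases e' : ps φ m = ps φ m'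
    · have : v = 0 := by rw [← hv, e']; ring
      linarith [k1.1, k2.1, k3.1, k4.1, k5.1, k6.1, k7.1, k8.1, k9.1]
    · rcases pl_cover φ e e' with c | c | c | c | c | c | c | c | c <;>
      first
        | linarith [k1.2 c, k2.1, k3.1, k4.1, k5.1, k6.1, k7.1, k8.1, k9.1]
        | linarith [k1.1, k2.2 c, k3.1, k4.1, k5.1, k6.1, k7.1, k8.1, k9.1]
        | linarith [k1.1, k2.1, k3.2 c, k4.1, k5.1, k6.1, k7.1, k8.1, k9.1]
        | linarith [k1.1, k2.1, k3.1, k4.2 c, k5.1, k6.1, k7.1, k8.1, k9.1]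
        | linarith [k1.1, k2.1, k3.1, k4.1, k5.2 c, k6.1, k7.1, k8.1, k9.1]
        | linarith [k1.1, k2.1, k3.1, k4.1, k5.1, k6.2 c, k7.1, k8.1, k9.1]
        | linarith [k1.1, k2.1, k3.1, k4.1, k5.1, k6.1, k7.2 c, k8.1, k9.1]
        | linarith [k1.1, k2.1, k3.1, k4.1, k5.1, k6.1, k7.1, k8.2 c, k9.1]
        | linarith [k1.1, k2.1, k3.1, k4.1, k5.1, k6.1, k7.1, k8.1, k9.2 c]
  · rw [if_neg e]
    linarith [k1.1, k2.1, k3.1, k4.1, k5.1, k6.1, k7.1, k8.1, k9.1]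

end Pool.Agent.MP_151d89_pr.H35
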